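import Mathlib
import Pool.Agent.Helper292.ForceCH

open Set Cardinal Ordinal

set_option linter.all false

namespace Pool.Agent.Results.MP_185924_lc.ConsistentlyFails

/-! ### Recursion along a well-order -/

theorem exists_rec {I : Type*} [LinearOrder I] [WellFoundedLT I] {X : Type*} [Inhabited X]
    (Phi : I → (I → X) → X → Prop)
    (hloc : ∀ i (D D' : I → X) x, (∀ j, j < i → D j = D' j) → Phi i D x → Phi i D' x)
    (hex : ∀ i D, ∃ x, Phi i D x) : ∃ D : I → X, ∀ i, Phi i D (D i) := by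
  classical
  let step : (i : I) → ((j : I) → j < i → X) → X := fun i D =>
    Classical.choose (hex i (fun j => if h : j < i then D j h else default))
  let D : I → X := WellFounded.fix (wellFounded_lt (α := I)) step
  refine ⟨D, fun i => ?_⟩
  have h1 : D i = step i (fun j _ => D j) := WellFounded.fix_eq _ _ _
  have h2 : Phi i (fun j => if h : j < i then D j else default) (step i (fun j _ => D j)) :=
    Classical.choose_spec (hex i (fun j => if h : j < i then D j else default))
  rw [← h1] at h2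
  refine hloc i _ _ _ ?_ h2
  intro j hj
  simp [hj]

section graph

variable {I : Type} [LinearOrder I]

/-- A task: columns `S.1 n` and sequences `S.2 n` of heights in them. -/
abbrev Task (I : Type) := (ℕ → I) × (ℕ → ℕ → I)

/-- the task is relevant for the vertex in column `γ` at height `η` -/
structure Valid (S : Task I) (γ η : I) : Prop where
  inj1 : Function.Injective S.1
  gt : ∀ n, γ < S.1 n
  inj2 : ∀ n, Function.Injective (S.2 n)
  lt : ∀ n m, S.2 n m < η

/-- requirements on the sets `N γ` of lower neighbours of the vertices `(γ, η)` -/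
structure P (e : I → I → ℕ) (T : I → Task I) (η : I) (D : I → I → Set (I × I))
    (N : I → Set (I × I)) : Prop where
  h1 : ∀ γ, ∀ y ∈ N γ, γ < y.1 ∧ y.2 < η
  h2 : ∀ γ ρ, {y | y ∈ N γ ∧ y.1 = ρ}.Finite
  h3 : ∀ γ, ∀ y ∈ N γ, ∀ z ∈ N γ, y ∈ D z.2 z.1 → e y.1 γ < e y.1 z.1
  h4 : ∀ γ, ∀ y ∈ N γ, ∀ z ∈ N γ, ∀ w ∈ N γ, y ∈ D z.2 z.1 → y ∈ D w.2 w.1 → z ∈ D w.2 w.1 → False
  h5 : ∀ γ, ∀ τ < η, Valid (T τ) γ η → ∃ n m, ((T τ).1 n, (T τ).2 n m) ∈ N γ

theorem P.congr {e : I → I → ℕ} {T : I → Task I} {η : I} {D D' : I → I → Set (I × I)}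
    {N : I → Set (I × I)} (h : ∀ j, j < η → D j = D' j) (hP : P e T η D N) : P e T η D' N := by
  refine ⟨hP.h1, hP.h2, ?_, ?_, hP.h5⟩
  · intro γ y hy z hz hyz
    rw [← h _ (hP.h1 γ z hz).2] at hyz
    exact hP.h3 γ y hy z hz hyz
  · intro γ y hy z hz w hw h1 h2 h3
    rw [← h _ (hP.h1 γ z hz).2] at h1
    rw [← h _ (hP.h1 γ w hw).2] at h2 h3
    exact hP.h4 γ y hy z hz w hw h1 h2 h3

/-- requirement on the `k`-th chosen lower neighbour -/
structure R (e : I → I → ℕ) (D : I → I → Set (I × I)) (S : Task I) (γ : I) (k : ℕ)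
    (y : ℕ → I × I) (x : I × I) : Prop where
  r1 : ∃ n m, x = (S.1 n, S.2 n m)
  r2 : ∀ i < k, x.1 ≠ (y i).1
  r3 : ∀ i < k, x ∉ D (y i).2 (y i).1
  r4 : ∀ i < k, x.1 < (y i).1 → e (y i).1 γ < e (y i).1 x.1
  r5 : ∀ i < k, ∀ j < k, x.1 < (y i).1 → e (y i).1 (y j).1 < e (y i).1 x.1

theorem exists_R {e : I → I → ℕ} (he : ∀ a, InjOn (e a) (Iio a)) {T : I → Task I} {η : I}
    {D : I → I → Set (I × I)} (hD : ∀ θ, θ < η → P e T θ D (D θ)) {S : Task I} {γ : I}
    (hS : Valid S γ η) (k : ℕ) (y : ℕ → I × I) (hy : ∀ i < k, (y i).2 < η) :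
    ∃ x, R e D S γ k y x := by
  classical
  -- bad indices of columns
  have hbad : ({n | ∃ i < k, S.1 n = (y i).1} ∪
      {n | ∃ i < k, S.1 n < (y i).1 ∧ e (y i).1 (S.1 n) ≤ e (y i).1 γ} ∪
      {n | ∃ i < k, ∃ j < k, S.1 n < (y i).1 ∧ e (y i).1 (S.1 n) ≤ e (y i).1 (y j).1}).Finite := by
    have hcol : ∀ i K, {n | S.1 n < (y i).1 ∧ e (y i).1 (S.1 n) ≤ K}.Finite := by
      intro i K
      refine Set.Finite.of_finite_image (f := fun n => e (y i).1 (S.1 n)) ?_ ?_
      · refine (Set.finite_Iic K).subset ?_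
        rintro _ ⟨n, hn, rfl⟩
        exact hn.2
      · intro a ha b hb hab
        exact hS.inj1 (he _ ha.1 hb.1 hab)
    refine (Set.Finite.union ?_ ?_).union ?_
    · have : {n | ∃ i < k, S.1 n = (y i).1} = ⋃ i ∈ Finset.range k, {n | S.1 n = (y i).1} := by
        ext n; simp
      rw [this]
      refine (Finset.range k).finite_toSet.biUnion fun i _ => ?_
      exact Set.Subsingleton.finite fun a ha b hb => hS.inj1 (ha.trans hb.symm)
    · refine ((Finset.range k).finite_toSet.biUnion fun i _ => hcol i (e (y i).1 γ)).subset ?_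
      rintro n ⟨i, hi, h⟩
      exact mem_biUnion (Finset.mem_coe.2 (Finset.mem_range.2 hi)) h
    · refine ((Finset.range k).finite_toSet.biUnion fun i _ =>
        (Finset.range k).finite_toSet.biUnion fun j _ => hcol i (e (y i).1 (y j).1)).subset ?_
      rintro n ⟨i, hi, j, hj, h⟩
      exact mem_biUnion (Finset.mem_coe.2 (Finset.mem_range.2 hi))
        (mem_biUnion (Finset.mem_coe.2 (Finset.mem_range.2 hj)) h)
  obtain ⟨n, hn⟩ := hbad.exists_notMem
  simp only [Set.mem_union, Set.mem_setOf_eq, not_or, not_exists, not_and] at hn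
  obtain ⟨⟨hn1, hn2⟩, hn3⟩ := hn
  -- bad heights
  have hbad2 : {m | ∃ i < k, (S.1 n, S.2 n m) ∈ D (y i).2 (y i).1}.Finite := by
    have : {m | ∃ i < k, (S.1 n, S.2 n m) ∈ D (y i).2 (y i).1} =
        ⋃ i ∈ Finset.range k, {m | (S.1 n, S.2 n m) ∈ D (y i).2 (y i).1} := by
      ext m; simp
    rw [this]
    refine (Finset.range k).finite_toSet.biUnion fun i hi => ?_
    have hfin := (hD _ (hy i (Finset.mem_range.1 hi))).h2 (y i).1 (S.1 n)
    refine Set.Finite.of_finite_image (f := fun m => (S.1 n, S.2 n m)) ?_ ?_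
    · refine hfin.subset ?_
      rintro _ ⟨m, hm, rfl⟩
      exact ⟨hm, rfl⟩
    · intro a _ b _ hab
      exact hS.inj2 n (congrArg Prod.snd hab)
  obtain ⟨m, hm⟩ := hbad2.exists_notMem
  simp only [Set.mem_setOf_eq, not_exists, not_and] at hm
  refine ⟨(S.1 n, S.2 n m), ⟨n, m, rfl⟩, fun i hi => hn1 i hi, fun i hi => hm i hi, ?_, ?_⟩
  · intro i hi h
    exact not_le.1 (hn2 i hi h)
  · intro i hi j hj h
    exact not_le.1 (hn3 i hi j hj h)

/-- the lower neighbours of one vertex -/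
theorem exists_N {e : I → I → ℕ} (he : ∀ a, InjOn (e a) (Iio a)) {T : I → Task I} {η : I}
    (hη : (Iio η).Countable) {D : I → I → Set (I × I)} (hD : ∀ θ, θ < η → P e T θ D (D θ)) (γ : I) :
    ∃ N : Set (I × I), (∀ y ∈ N, γ < y.1 ∧ y.2 < η) ∧ (∀ ρ, {y | y ∈ N ∧ y.1 = ρ}.Finite) ∧
      (∀ y ∈ N, ∀ z ∈ N, y ∈ D z.2 z.1 → e y.1 γ < e y.1 z.1) ∧
      (∀ y ∈ N, ∀ z ∈ N, ∀ w ∈ N, y ∈ D z.2 z.1 → y ∈ D w.2 w.1 → z ∈ D w.2 w.1 → False) ∧
      (∀ τ < η, Valid (T τ) γ η → ∃ n m, ((T τ).1 n, (T τ).2 n m) ∈ N) := by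
  classical
  by_cases hemp : {τ | τ < η ∧ Valid (T τ) γ η}.Nonempty
  swap
  · rw [Set.not_nonempty_iff_eq_empty] at hemp
    refine ⟨∅, by simp, by simp, by simp, by simp, fun τ h1 h2 => ?_⟩
    have : τ ∈ {τ | τ < η ∧ Valid (T τ) γ η} := ⟨h1, h2⟩
    rw [hemp] at this
    exact absurd this (Set.notMem_empty _)
  have hcount : {τ | τ < η ∧ Valid (T τ) γ η}.Countable := hη.mono fun τ h => h.1
  obtain ⟨t, ht⟩ := hcount.exists_eq_range hemp
  have htv : ∀ k, t k < η ∧ Valid (T (t k)) γ η := fun k => by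
    have : t k ∈ range t := ⟨k, rfl⟩
    rw [← ht] at this
    exact this
  haveI : Inhabited (I × I) := ⟨(γ, γ)⟩
  obtain ⟨y, hy⟩ := exists_rec (I := ℕ) (X := I × I)
    (fun k y x => (∀ i < k, (y i).2 < η) → R e D (T (t k)) γ k y x) (by
      intro k y y' x h hx hy'
      have hx' := hx fun i hi => by rw [h i hi]; exact hy' i hi
      refine ⟨hx'.r1, ?_, ?_, ?_, ?_⟩
      · intro i hi; rw [← h i hi]; exact hx'.r2 i hi
      · intro i hi; rw [← h i hi]; exact hx'.r3 i hi
      · intro i hi; rw [← h i hi]; exact hx'.r4 i hi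
      · intro i hi j hj; rw [← h i hi, ← h j hj]; exact hx'.r5 i hi j hj) (by
      intro k y
      by_cases hk : ∀ i < k, (y i).2 < η
      · obtain ⟨x, hx⟩ := exists_R he hD (htv k).2 k y hk
        exact ⟨x, fun _ => hx⟩
      · exact ⟨default, fun h => absurd h hk⟩)
  have hylt : ∀ k, (y k).2 < η := by
    intro k
    induction k using Nat.strong_induction_on with
    | _ k ih =>
      obtain ⟨n, m, h⟩ := (hy k ih).r1
      rw [h]
      exact (htv k).2.lt n m
  have hR : ∀ k, R e D (T (t k)) γ k y (y k) := fun k => hy k fun i _ => hylt i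
  have hgt : ∀ k, γ < (y k).1 := by
    intro k
    obtain ⟨n, m, h⟩ := (hR k).r1
    rw [h]
    exact (htv k).2.gt n
  have hinj : ∀ a b, (y a).1 = (y b).1 → a = b := by
    intro a b hab
    rcases lt_trichotomy a b with h | h | h
    · exact absurd hab.symm ((hR b).r2 a h)
    · exact h
    · exact absurd hab ((hR a).r2 b h)
  -- order of choice
  have hord : ∀ a b, y a ∈ D (y b).2 (y b).1 → a < b := by
    intro a b hab
    rcases lt_trichotomy a b with h | h | h
    · exact h
    · subst h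
      exact absurd ((hD _ (hylt a)).h1 _ _ hab).2 (lt_irrefl _)
    · exact absurd hab ((hR a).r3 b h)
  have hcol : ∀ a b, y a ∈ D (y b).2 (y b).1 → (y b).1 < (y a).1 := fun a b hab =>
    ((hD _ (hylt b)).h1 _ _ hab).1
  refine ⟨range y, ?_, ?_, ?_, ?_, ?_⟩
  · rintro _ ⟨k, rfl⟩
    exact ⟨hgt k, hylt k⟩
  · intro ρ
    refine Set.Subsingleton.finite ?_
    rintro _ ⟨⟨a, rfl⟩, ha⟩ _ ⟨⟨b, rfl⟩, hb⟩
    rw [hinj a b (ha.trans hb.symm)]
  · rintro _ ⟨a, rfl⟩ _ ⟨b, rfl⟩ hab
    exact (hR b).r4 a (hord a b hab) (hcol a b hab)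
  · rintro _ ⟨a, rfl⟩ _ ⟨b, rfl⟩ _ ⟨c, rfl⟩ hab hac hbc
    have h1 := (hR c).r5 a (hord a c hac) b (hord b c hbc) (hcol a c hac)
    have h2 := (hD _ (hylt c)).h3 _ _ hac _ hbc hab
    exact absurd h1 (not_lt.2 h2.le)
  · intro τ hτ hv
    have : τ ∈ range t := by
      rw [← ht]; exact ⟨hτ, hv⟩
    obtain ⟨k, rfl⟩ := this
    obtain ⟨n, m, h⟩ := (hR k).r1
    exact ⟨n, m, k, h⟩

theorem exists_D [WellFoundedLT I] {e : I → I → ℕ} (he : ∀ a, InjOn (e a) (Iio a)) (T : I → Task I)
    (hI : ∀ η : I, (Iio η).Countable) :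
    ∃ D : I → I → Set (I × I), ∀ η, P e T η D (D η) := by
  classical
  haveI : Inhabited (I → Set (I × I)) := ⟨fun _ => ∅⟩
  obtain ⟨D, hD⟩ := exists_rec (I := I) (X := I → Set (I × I))
    (fun η D N => (∀ θ, θ < η → P e T θ D (D θ)) → P e T η D N) (by
      intro η D D' N h hN hD'
      refine (hN ?_).congr h
      intro θ hθ
      rw [h θ hθ]
      exact (hD' θ hθ).congr fun j hj => (h j (hj.trans hθ)).symm) (by
      intro η D
      by_cases hD : ∀ θ, θ < η → P e T θ D (D θ)
      · choose N h1 h2 h3 h4 h5 using fun γ => exists_N he (hI η) hD γ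
        exact ⟨N, fun _ => ⟨h1, h2, h3, h4, h5⟩⟩
      · exact ⟨default, fun h => absurd h hD⟩)
  refine ⟨D, fun η => ?_⟩
  induction η using WellFoundedLT.induction with
  | ind η IH => exact hD η IH

/-- adjacency -/
def Adj (D : I → I → Set (I × I)) (x y : I × I) : Prop := x ∈ D y.2 y.1 ∨ y ∈ D x.2 x.1

theorem no_K4 {e : I → I → ℕ} {T : I → Task I} {D : I → I → Set (I × I)}
    (hD : ∀ η, P e T η D (D η)) (V : Finset (I × I)) (hV : 4 ≤ V.card)
    (hadj : ∀ x ∈ V, ∀ y ∈ V, x ≠ y → Adj D x y) : False := by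
  classical
  have hlt : ∀ x y : I × I, x ∈ D y.2 y.1 → x.2 < y.2 := fun x y h => ((hD y.2).h1 _ _ h).2
  -- the lower neighbours
  have hlow : ∀ x ∈ V, ∀ y ∈ V, x ≠ y → x.2 ≤ y.2 → x ∈ D y.2 y.1 := by
    intro x hx y hy hxy hle
    rcases hadj x hx y hy hxy with h | h
    · exact h
    · exact absurd (hlt _ _ h) (not_lt.2 hle)
  obtain ⟨w, hw, hwmax⟩ := V.exists_max_image Prod.snd (Finset.card_pos.1 (by omega))
  have hc1 : (V.erase w).card = V.card - 1 := Finset.card_erase_of_mem hw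
  obtain ⟨u, hu, humax⟩ := (V.erase w).exists_max_image Prod.snd (Finset.card_pos.1 (by omega))
  have hc2 : ((V.erase w).erase u).card = V.card - 1 - 1 := by
    rw [Finset.card_erase_of_mem hu, hc1]
  obtain ⟨y, hy, z, hz, hyz⟩ := Finset.one_lt_card.1 (show 1 < ((V.erase w).erase u).card by omega)
  rw [Finset.mem_erase] at hu
  rw [Finset.mem_erase, Finset.mem_erase] at hy hz
  have hyu := hlow y hy.2.2 u hu.2 hy.1 (humax y (Finset.mem_erase.2 ⟨hy.2.1, hy.2.2⟩))
  have hzu := hlow z hz.2.2 u hu.2 hz.1 (humax z (Finset.mem_erase.2 ⟨hz.2.1, hz.2.2⟩))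
  have hyw := hlow y hy.2.2 w hw hy.2.1 (hwmax y hy.2.2)
  have hzw := hlow z hz.2.2 w hw hz.2.1 (hwmax z hz.2.2)
  have huw := hlow u hu.2 w hw hu.1 (hwmax u hu.2)
  rcases hadj y hy.2.2 z hz.2.2 hyz with h | h
  · exact (hD w.2).h4 w.1 y hyw z hzw u huw h hyu hzu
  · exact (hD w.2).h4 w.1 z hzw y hyw u huw h hzu hyu

/-- no independent union of uncountable subsets of infinitely many columns -/
theorem no_independent {e : I → I → ℕ} {T : I → Task I} (hT : Function.Surjective T)
    {D : I → I → Set (I × I)} (hD : ∀ η, P e T η D (D η)) (hI : ∀ η : I, (Iic η).Countable)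
    (ρ : ℕ → I) (hρ : StrictMono ρ) (B : ℕ → Set I) (hB : ∀ n, ¬ (B n).Countable) :
    ∃ η ∈ B 0, ∃ n, ∃ θ ∈ B (n + 1), Adj D (ρ 0, η) (ρ (n + 1), θ) := by
  classical
  have hinf : ∀ n, (B (n + 1)).Infinite := fun n h => hB _ h.countable
  let C : ℕ → ℕ → I := fun n => Subtype.val ∘ (hinf n).natEmbedding
  have hC : ∀ n m, C n m ∈ B (n + 1) := fun n m => ((hinf n).natEmbedding _ m).2
  have hCinj : ∀ n, Function.Injective (C n) := fun n =>
    Subtype.val_injective.comp ((hinf n).natEmbedding _).injective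
  obtain ⟨τ, hτ⟩ := hT (fun n => ρ (n + 1), C)
  have hctbl : (Iic τ ∪ ⋃ n, ⋃ m, Iic (C n m)).Countable :=
    (hI τ).union (countable_iUnion fun n => countable_iUnion fun m => hI _)
  obtain ⟨η, hη1, hη2⟩ : ∃ η ∈ B 0, η ∉ (Iic τ ∪ ⋃ n, ⋃ m, Iic (C n m)) := by
    by_contra hcon
    push Not at hcon
    exact hB 0 (hctbl.mono hcon)
  simp only [Set.mem_union, Set.mem_iUnion, Set.mem_Iic, not_or, not_exists, not_le] at hη2
  obtain ⟨n, m, h⟩ := (hD η).h5 (ρ 0) τ hη2.1 (by
    rw [hτ]
    exact ⟨fun a b hab => by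
        have := hρ.injective hab
        omega, fun n => hρ (Nat.succ_pos n), hCinj, hη2.2⟩)
  rw [hτ] at h
  exact ⟨η, hη1, n, C n m, hC n m, Or.inr h⟩

end graph

theorem Adj.symm' {I : Type} [LinearOrder I] {D : I → I → Set (I × I)} {x y : I × I}
    (h : Adj D x y) : Adj D y x := Or.symm h

/-- Under the continuum hypothesis `ω₁ ^ 2 → (ω₁ ω, 4) ^ 2` fails. -/
theorem ch_result (hCH : Cardinal.aleph 1 = Cardinal.continuum.{0}) :
    ¬ (∀ c : Ordinal.{0} → Ordinal.{0} → Prop,
      (∃ f : Ordinal.{0} → Ordinal.{0},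
          StrictMonoOn f (Set.Iio ((Cardinal.aleph 1).ord * Ordinal.omega0)) ∧
          (∀ α, α < (Cardinal.aleph 1).ord * Ordinal.omega0 →
              f α < (Cardinal.aleph 1).ord * (Cardinal.aleph 1).ord) ∧
          (∀ α β, α < β → β < (Cardinal.aleph 1).ord * Ordinal.omega0 →
              c (f α) (f β))) ∨
      (∃ g : Fin 4 → Ordinal.{0},
          StrictMono g ∧
          (∀ i, g i < (Cardinal.aleph 1).ord * (Cardinal.aleph 1).ord) ∧
          (∀ i j, i < j → ¬ c (g i) (g j)))) := by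
  classical
  intro hall
  obtain ⟨W, hWdef⟩ : ∃ W : Ordinal.{0}, W = (Cardinal.aleph 1 : Cardinal.{0}).ord := ⟨_, rfl⟩
  rw [← hWdef] at hall
  let I : Type := (Cardinal.aleph 1 : Cardinal.{0}).ord.ToType
  have hIio : ∀ i : I, (Iio i).Countable := fun i => by
    have h := Cardinal.mk_Iio_lt i (by simp [I])
    rw [Cardinal.mk_ord_toType] at h
    have h2 : #(Set.Iio i) ≤ Cardinal.aleph0 := by
      rw [← Order.lt_succ_iff, Cardinal.succ_aleph0]
      exact h
    exact (Cardinal.mk_le_aleph0_iff.1 h2).to_set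
  have hIic : ∀ i : I, (Iic i).Countable := fun i => by
    have : (Iic i : Set I) ⊆ insert i (Iio i) := by
      intro j hj
      rcases lt_or_eq_of_le (show j ≤ i from hj) with h | h
      · exact Or.inr h
      · exact Or.inl h
    exact ((hIio i).insert i).mono this
  have hIunc : ¬ (Set.univ : Set I).Countable := by
    intro h
    have h1 : #I ≤ Cardinal.aleph0 := by
      rw [← Cardinal.mk_univ]
      exact (Set.countable_coe_iff.2 h |> Cardinal.mk_le_aleph0_iff.2)
    rw [Cardinal.mk_ord_toType] at h1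
    exact absurd Cardinal.aleph0_lt_aleph_one (not_lt.2 h1)
  -- enumerations of initial segments
  have he : ∀ a : I, ∃ e : I → ℕ, InjOn e (Iio a) := fun a =>
    (Set.countable_iff_exists_injOn).1 (hIio a)
  choose e he using he
  -- tasks
  have hcard : #(Task I) ≤ #I := by
    have hI : #I = 𝔠 := by rw [Cardinal.mk_ord_toType, hCH]
    have h1 : #(ℕ → I) = 𝔠 := by
      rw [← Cardinal.power_def, hI, Cardinal.mk_nat, Cardinal.continuum_power_aleph0]
    have h2 : #(ℕ → ℕ → I) = 𝔠 := by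
      rw [← Cardinal.power_def, h1, Cardinal.mk_nat, Cardinal.continuum_power_aleph0]
    have h3 : #(Task I) = #(ℕ → I) * #(ℕ → ℕ → I) := by
      simp only [Task, Cardinal.mk_prod, Cardinal.lift_id]
    rw [h3, h1, h2, hI, Cardinal.continuum_mul_self]
  obtain ⟨ι⟩ := (Cardinal.le_def _ _).mp hcard
  have hWpos : 0 < W := by
    rw [hWdef, Cardinal.ord_aleph]
    exact Ordinal.omega_pos 1
  have hW0 : W ≠ 0 := hWpos.ne'
  let mkI : Set.Iio W → I := fun o => ToType.mk ⟨o.1, by rw [← hWdef]; exact o.2⟩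
  haveI : Nonempty (Task I) := ⟨(fun _ => mkI ⟨0, hWpos⟩, fun _ _ => mkI ⟨0, hWpos⟩)⟩
  let T : I → Task I := Function.invFun ι
  have hT : Function.Surjective T := Function.invFun_surjective ι.injective
  obtain ⟨D, hD⟩ := exists_D he T hIio
  -- coordinates
  let toI : Ordinal.{0} → I := fun o => if h : o < W then mkI ⟨o, h⟩ else mkI ⟨0, hWpos⟩
  have htoI : ∀ a b : Ordinal.{0}, a < W → b < W → (toI a < toI b ↔ a < b) := by
    intro a b ha hb
    simp only [toI, dif_pos ha, dif_pos hb, mkI]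
    rw [OrderIso.lt_iff_lt]
    exact Iff.rfl
  have htoI' : ∀ a b : Ordinal.{0}, a < W → b < W → toI a = toI b → a = b := by
    intro a b ha hb hab
    rcases lt_trichotomy a b with h | h | h
    · have := (htoI a b ha hb).2 h
      rw [hab] at this
      exact absurd this (lt_irrefl _)
    · exact h
    · have := (htoI b a hb ha).2 h
      rw [hab] at this
      exact absurd this (lt_irrefl _)
  have hq : ∀ α, α < W * W → α / W < W := fun α hα => (Ordinal.div_lt hW0).2 hα
  have hr : ∀ α : Ordinal.{0}, α % W < W := fun α => Ordinal.mod_lt α hW0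
  let pt : Ordinal.{0} → I × I := fun α => (toI (α / W), toI (α % W))
  have hpt : ∀ α β, α < W * W → β < W * W → pt α = pt β → α = β := by
    intro α β hα hβ h
    have h1 := htoI' _ _ (hq α hα) (hq β hβ) (congrArg Prod.fst h)
    have h2 := htoI' _ _ (hr α) (hr β) (congrArg Prod.snd h)
    rw [← Ordinal.div_add_mod α W, ← Ordinal.div_add_mod β W, h1, h2]
  rcases hall (fun α β => ¬ Adj D (pt α) (pt β)) with ⟨f, hf1, hf2, hf3⟩ | ⟨g, hg1, hg2, hg3⟩
  · -- a homogeneous set of type `ω₁ ω`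
    let o : I → Ordinal.{0} := fun i => (ToType.mk.symm i : Set.Iio _).1
    have ho : ∀ i, o i < W := fun i => by
      rw [hWdef]; exact (ToType.mk.symm i : Set.Iio _).2
    have ho_inj : Function.Injective o := fun i j h =>
      ToType.mk.symm.injective (Subtype.ext h)
    have hlt1 : ∀ (n : ℕ) (i : I), W * (n : Ordinal.{0}) + o i < W * ((n + 1 : ℕ) : Ordinal.{0}) := by
      intro n i
      rw [Nat.cast_succ, mul_add, mul_one]
      exact add_lt_add_right (ho i) _
    have hltω : ∀ (n : ℕ) (i : I), W * (n : Ordinal.{0}) + o i < W * Ordinal.omega0 := by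
      intro n i
      refine (hlt1 n i).trans_le ?_
      exact mul_le_mul_right (Ordinal.nat_lt_omega0 _).le _
    have hltnm : ∀ (n m : ℕ) (i j : I), n < m →
        W * (n : Ordinal.{0}) + o i < W * (m : Ordinal.{0}) + o j := by
      intro n m i j hnm
      refine (hlt1 n i).trans_le ?_
      have h1 : W * ((n + 1 : ℕ) : Ordinal.{0}) ≤ W * (m : Ordinal.{0}) :=
        mul_le_mul_right (by exact_mod_cast hnm) _
      exact h1.trans (le_self_add)
    let F : ℕ → I → Ordinal.{0} := fun n i => f (W * (n : Ordinal.{0}) + o i)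
    have hFlt : ∀ n i, F n i < W * W := fun n i => hf2 _ (hltω n i)
    have hFnm : ∀ n m i j, n < m → F n i < F m j := fun n m i j hnm =>
      hf1 (hltω n i) (hltω m j) (hltnm n m i j hnm)
    have hFinj : ∀ n, Function.Injective (F n) := by
      intro n i j hij
      have h1 := hf1.injOn (hltω n i) (hltω n j) hij
      exact ho_inj (add_left_cancel h1)
    have hdivmono : ∀ a b : Ordinal.{0}, a < b → a / W ≤ b / W := by
      intro a b hab
      exact (Ordinal.div_le hW0).2 (hab.trans (Ordinal.lt_mul_succ_div _ hW0))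
    let col : ℕ → I → I := fun n i => toI (F n i / W)
    have hcolle : ∀ n m i j, n < m → col n i ≤ col m j := by
      intro n m i j hnm
      rcases lt_or_eq_of_le (hdivmono _ _ (hFnm n m i j hnm)) with h | h
      · exact ((htoI _ _ (hq _ (hFlt n i)) (hq _ (hFlt m j))).2 h).le
      · simp only [col, h]; exact le_rfl
    have hpig : ∀ n, ∃ ρ, ¬ {i | col n i = ρ}.Countable := by
      intro n
      by_contra hcon
      push Not at hcon
      apply hIunc
      have i0 : I := mkI ⟨0, hWpos⟩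
      have h1 : (Set.univ : Set I) ⊆ ⋃ ρ ∈ Iic (col (n + 1) i0), {i | col n i = ρ} := by
        intro i _
        simp only [Set.mem_iUnion]
        exact ⟨col n i, hcolle n (n + 1) i i0 (Nat.lt_succ_self n), rfl⟩
      exact ((hIic _).biUnion fun ρ _ => hcon ρ).mono h1
    choose ρ hρ using hpig
    let B : ℕ → Set I := fun n => (fun i => toI (F n i % W)) '' {i | col n i = ρ n}
    have hptF : ∀ n i, col n i = ρ n → pt (F n i) = (ρ n, toI (F n i % W)) := by
      intro n i h
      simp only [pt]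
      rw [← h]
    have hB : ∀ n, ¬ (B n).Countable := by
      intro n h
      refine hρ n (Set.countable_of_injective_of_countable_image ?_ h)
      intro i hi j hj hij
      have h1 : pt (F n i) = pt (F n j) := by
        rw [hptF n i hi, hptF n j hj]
        exact Prod.ext rfl hij
      exact hFinj n (hpt _ _ (hFlt n i) (hFlt n j) h1)
    have hne : ∀ n, ∃ i, col n i = ρ n := by
      intro n
      by_contra hcon
      push Not at hcon
      apply hρ n
      have : {i | col n i = ρ n} = ∅ := Set.eq_empty_of_forall_notMem hcon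
      rw [this]
      exact Set.countable_empty
    have hρmono : StrictMono ρ := by
      intro n m hnm
      obtain ⟨j, hj⟩ := hne m
      obtain ⟨i, hi⟩ := hne n
      refine lt_of_le_of_ne ?_ ?_
      · rw [← hi, ← hj]
        exact hcolle n m i j hnm
      · intro heq
        apply hB n
        refine (hIio (toI (F m j % W))).mono ?_
        rintro _ ⟨i, hi, rfl⟩
        have hi' : col n i = ρ n := hi
        have h1 : F n i / W = F m j / W :=
          htoI' _ _ (hq _ (hFlt n i)) (hq _ (hFlt m j)) (by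
            show col n i = col m j
            rw [hi', hj, heq])
        have h2 := hFnm n m i j hnm
        rw [← Ordinal.div_add_mod (F n i) W, ← Ordinal.div_add_mod (F m j) W, h1] at h2
        exact (htoI _ _ (hr _) (hr _)).2 (lt_of_add_lt_add_left h2)
    obtain ⟨η, ⟨i, hi, rfl⟩, n, θ, ⟨j, hj, rfl⟩, hadj⟩ := no_independent hT hD hIic ρ hρmono B hB
    have h1 := hf3 _ _ (hltnm 0 (n + 1) i j (Nat.succ_pos n)) (hltω (n + 1) j)
    apply h1
    have h2 : pt (F 0 i) = (ρ 0, toI (F 0 i % W)) := hptF 0 i hi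
    have h3 : pt (F (n + 1) j) = (ρ (n + 1), toI (F (n + 1) j % W)) := hptF (n + 1) j hj
    show Adj D (pt (F 0 i)) (pt (F (n + 1) j))
    rw [h2, h3]
    exact hadj
  · -- a complete graph with 4 vertices
    have hinj : Function.Injective fun i => pt (g i) := by
      intro i j hij
      exact hg1.injective (hpt _ _ (hg2 i) (hg2 j) hij)
    refine no_K4 hD (Finset.univ.image fun i => pt (g i)) ?_ ?_
    · rw [Finset.card_image_of_injective _ hinj]
      simp
    · intro x hx y hy hxy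
      obtain ⟨i, -, rfl⟩ := Finset.mem_image.1 hx
      obtain ⟨j, -, rfl⟩ := Finset.mem_image.1 hy
      have hij : i ≠ j := fun h => hxy (by rw [h])
      rcases lt_or_gt_of_ne hij with h | h
      · exact not_not.1 (hg3 i j h)
      · exact (not_not.1 (hg3 j i h)).symm'

/-- No hypothesis is assumed. (1) There is a notion of forcing `P` all of whose conditions force that
`ω₁` is preserved and that the continuum hypothesis holds. (2) The continuum hypothesis implies that
`ω₁ ^ 2 → (ω₁ ω, 4) ^ 2` fails. -/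
theorem result :
    (∃ (P : Type) (_ : Preorder P), Nonempty P ∧ ∀ p : P,
      p ∈ Pool.Agent.Helper292.ForceCH.OmegaOnePreserved P ∧
      p ∈ Pool.Agent.Helper292.ForceCH.CHHolds P) ∧
    (Cardinal.aleph 1 = Cardinal.continuum.{0} →
      ¬ (∀ c : Ordinal.{0} → Ordinal.{0} → Prop,
        (∃ f : Ordinal.{0} → Ordinal.{0},
            StrictMonoOn f (Set.Iio ((Cardinal.aleph 1).ord * Ordinal.omega0)) ∧
            (∀ α, α < (Cardinal.aleph 1).ord * Ordinal.omega0 →
                f α < (Cardinal.aleph 1).ord * (Cardinal.aleph 1).ord) ∧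
            (∀ α β, α < β → β < (Cardinal.aleph 1).ord * Ordinal.omega0 →
                c (f α) (f β))) ∨
        (∃ g : Fin 4 → Ordinal.{0},
            StrictMono g ∧
            (∀ i, g i < (Cardinal.aleph 1).ord * (Cardinal.aleph 1).ord) ∧
            (∀ i j, i < j → ¬ c (g i) (g j))))) := by
  refine ⟨?_, ch_result⟩
  obtain ⟨P, i, h1, h2⟩ := Pool.Agent.Helper292.ForceCH.exists_forcing
  exact ⟨P, i, h1, fun p => ⟨(h2 p).1, (h2 p).2.2⟩⟩

end Pool.Agent.Results.MP_185924_lc.ConsistentlyFails
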